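import Pool.Agent.R507.AMZ.Up
import Pool.Agent.R507.AMZ.Low

/-!
# The central Fourier algebra amenability constant of the derived subgroup

`AMZA G = |G|⁻² ∑_{χ, χ'} χ(1) χ'(1) |∑_C |C|² χ(C) conj (χ'(C))|` (sums over the irreducible
complex characters and over the conjugacy classes of `G`) is the amenability constant of the
central Fourier algebra of a finite group. We show that `AMZA (G') ≤ AMZA G` fails: for the
sharply 2-transitive group `G = 5² : SL(2, 3)` of order 600, with `G' = 5² : Q₈`, one has
`AMZA G ≤ 9.57` and `AMZA G' ≥ 9.83` (the exact values are about `8.52` and `12.38`).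

The upper bound comes from writing the diagonal `∑_C 1_C ⊗ 1_C` as a combination of products of
irreducible characters, the lower bound from the three irreducible characters of degree 8 of `G'`.
-/

set_option autoImplicit false

namespace Pool.Agent.Results.MP_3464eb_al.DerivedLarger
open Pool.Agent.R507.AMZ

/-- There is a finite group `G`, of order 600, with `AMZA G < AMZA (G')`. -/
theorem result : ∃ (G : Type) (_ : Group G) (_ : Finite G), Nat.card G = 600 ∧
    AMZA G ≤ 9.57 ∧ 9.83 ≤ AMZA (commutator G) ∧ AMZA G < AMZA (commutator G) := by
  refine ⟨Gp, inferInstance, inferInstance, ?_, up, ?_, ?_⟩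
  · rw [Nat.card_eq_fintype_card, Gp.card_Gp]
  · rw [commutator_eq]; exact low
  · rw [commutator_eq]
    exact up.trans_lt (lt_of_lt_of_le (by norm_num) low)

end Pool.Agent.Results.MP_3464eb_al.DerivedLarger
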